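import Pool.Agent.H80.HS.Targets

namespace Pool.Agent.H37.HS
open MeasureTheory Set Pool.Agent.H80.HS
open scoped ContDiff ENNReal

private lemma logx (x : ℝ) (hx : 0 < x) : (x + 1) * Real.log x + 1 ≤ (x + 1) * Real.log (x + 1) := by
  have h1 : Real.log (x / (x + 1)) ≤ x / (x + 1) - 1 :=
    Real.log_le_sub_one_of_pos (by positivity)
  rw [Real.log_div hx.ne' (by positivity)] at h1
  have h2 : x / (x + 1) - 1 = -(1 / (x + 1)) := by field_simp; ring
  rw [h2] at h1
  have h3 : (x + 1) * (1 / (x + 1)) = 1 := by field_simp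
  nlinarith

private lemma gam (k : ℕ) : Real.log (Real.Gamma (((k + 1 : ℕ) : ℝ) / 2 + 1)) ≤
      ((k + 1 : ℕ) : ℝ) / 2 * (Real.log (((k + 1 : ℕ) : ℝ) / 2) - 1) +
        Real.log ((k + 1 : ℕ) : ℝ) + 1 := by
  induction k using Nat.twoStepInduction with
  | zero =>
    have h1 : Real.Gamma (((0 + 1 : ℕ) : ℝ) / 2 + 1) = Real.sqrt Real.pi / 2 := by
      rw [Real.Gamma_add_one (by norm_num)]
      norm_num
      rw [Real.Gamma_one_half_eq]
      ring
    have h2 : Real.sqrt Real.pi / 2 ≤ 1 := by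
      have : Real.sqrt Real.pi ≤ Real.sqrt 4 := Real.sqrt_le_sqrt Real.pi_le_four
      have h4 : Real.sqrt 4 = 2 := by
        rw [show (4 : ℝ) = 2 ^ 2 by norm_num]; exact Real.sqrt_sq (by norm_num)
      linarith
    have h3 : Real.log (Real.sqrt Real.pi / 2) ≤ 0 :=
      Real.log_nonpos (by positivity) h2
    have h5 : Real.log ((1 : ℝ) / 2) = - Real.log 2 := by
      rw [one_div, Real.log_inv]
    have h6 := Real.log_two_lt_d9
    rw [h1]
    norm_num
    norm_num at h5
    rw [h5]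
    linarith
  | one =>
    have h6 := Real.log_two_gt_d9
    norm_num
    linarith
  | more k h _ =>
    set x : ℝ := ((k + 1 : ℕ) : ℝ) / 2 with hx
    have hk : (0 : ℝ) < ((k + 1 : ℕ) : ℝ) := by positivity
    have hx0 : 0 < x := by positivity
    have e1 : (((k + 2) + 1 : ℕ) : ℝ) / 2 = x + 1 := by
      rw [hx]; push_cast; ring
    have e2 : (((k + 2) + 1 : ℕ) : ℝ) = 2 * (x + 1) := by
      rw [hx]; push_cast; ring
    have e3 : ((k + 1 : ℕ) : ℝ) = 2 * x := by rw [hx]; ring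
    rw [e1, Real.Gamma_add_one (by positivity), Real.log_mul (by positivity)
      (Real.Gamma_pos_of_pos (by positivity)).ne', e2, Real.log_mul (by norm_num) (by positivity)]
    rw [e3, Real.log_mul (by norm_num) hx0.ne'] at h
    have := logx x hx0
    linarith

theorem a1 : T_A1 := by
  refine ⟨3, fun n hn => ?_⟩
  obtain ⟨k, rfl⟩ : ∃ k, n = k + 1 := ⟨n - 1, by omega⟩
  have hom : om (k + 1) = Real.sqrt Real.pi ^ (k + 1) /
      Real.Gamma (((k + 1 : ℕ) : ℝ) / 2 + 1) := by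
    unfold om
    rw [EuclideanSpace.volume_ball]
    simp only [ENNReal.ofReal_one, one_pow, one_mul, Fintype.card_fin]
    rw [ENNReal.toReal_ofReal]
    have := Real.Gamma_pos_of_pos (s := ((k + 1 : ℕ) : ℝ) / 2 + 1) (by positivity)
    positivity
  have hG := Real.Gamma_pos_of_pos (s := ((k + 1 : ℕ) : ℝ) / 2 + 1) (by positivity)
  have h1 := gam k
  have hk : (0 : ℝ) < ((k + 1 : ℕ) : ℝ) := by positivity
  rw [hom, Real.log_div (by positivity) hG.ne', Real.log_pow, Real.log_sqrt Real.pi_pos.le]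
  have h2 : Real.log (2 * Real.pi * Real.exp 1 / ((k + 1 : ℕ) : ℝ)) =
      Real.log Real.pi + 1 - Real.log (((k + 1 : ℕ) : ℝ) / 2) := by
    rw [show 2 * Real.pi * Real.exp 1 / ((k + 1 : ℕ) : ℝ) =
      (Real.pi * Real.exp 1) / (((k + 1 : ℕ) : ℝ) / 2) by field_simp,
      Real.log_div (by positivity) (by positivity), Real.log_mul Real.pi_pos.ne'
      (Real.exp_pos 1).ne', Real.log_exp]
  rw [h2]
  have h3 : Real.log ((k + 1 : ℕ) : ℝ) ≤ Real.log (((k + 1 : ℕ) : ℝ) + 1) :=
    Real.log_le_log hk (by linarith)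
  have h4 : Real.log 2 ≤ Real.log (((k + 1 : ℕ) : ℝ) + 1) :=
    Real.log_le_log (by norm_num) (by push_cast; linarith [Nat.cast_nonneg (α := ℝ) k])
  have h5 := Real.log_two_gt_d9
  linarith

end Pool.Agent.H37.HS
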