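import Pool.Agent.H80.HS.Targets

namespace Pool.Agent.H37.HS
open MeasureTheory Set Pool.Agent.H80.HS
open scoped ContDiff ENNReal

theorem g0 : T_G0 := by
  intro 𝕜 _ n p C h u hu hc
  have hU : ContDiff ℝ ∞ (fun z : H n => ((u z : ℝ) : 𝕜)) :=
    (RCLike.ofRealCLM (K := 𝕜)).contDiff.comp hu
  have hcU : HasCompactSupport (fun z : H n => ((u z : ℝ) : 𝕜)) :=
    hc.comp_left (g := fun r : ℝ => (r : 𝕜)) RCLike.ofReal_zero
  have hd : Differentiable ℝ u := hu.differentiable (by simp)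
  have hf : ∀ z q, fderiv ℝ (fun z : H n => ((u z : ℝ) : 𝕜)) z q = ((fderiv ℝ u z q : ℝ) : 𝕜) := by
    intro z q
    have h1 : HasFDerivAt (fun z : H n => ((u z : ℝ) : 𝕜))
        ((RCLike.ofRealCLM (K := 𝕜)).comp (fderiv ℝ u z)) z :=
      (RCLike.ofRealCLM (K := 𝕜)).hasFDerivAt.comp z (hd z).hasFDerivAt
    rw [h1.fderiv]
    simp
  have hg : ∀ z, grad (fun z : H n => ((u z : ℝ) : 𝕜)) z = grad u z := by
    intro z
    unfold grad X Y
    simp only [hf, RCLike.norm_ofReal, Real.norm_eq_abs]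
  have h2 := h (fun z : H n => ((u z : ℝ) : 𝕜)) hU hcU
  simp only [hg, RCLike.norm_ofReal] at h2
  simpa only [Real.norm_eq_abs] using h2

end Pool.Agent.H37.HS
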