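import Pool.Agent.H80.HS.Targets

namespace Pool.Agent.H37.HS
open MeasureTheory Set Pool.Agent.H80.HS
open scoped ContDiff ENNReal

private lemma meas_slice {n : ℕ} {F : Set (H n)} (hF : IsClosed F) (y : V n) (s : ℝ) :
    MeasurableSet {x : V n | (x, y, s + 2 * inner ℝ x y) ∈ F} := by
  have : Continuous (fun x : V n => ((x, y, s + 2 * inner ℝ x y) : H n)) := by fun_prop
  exact (hF.preimage this).measurableSet

private lemma meas_slice' {n : ℕ} {F : Set (H n)} (hF : IsClosed F) (x : V n) (s : ℝ) :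
    MeasurableSet {y : V n | (x, y, s - 2 * inner ℝ x y) ∈ F} := by
  have : Continuous (fun y : V n => ((x, y, s - 2 * inner ℝ x y) : H n)) := by fun_prop
  exact (hF.preimage this).measurableSet

private lemma sX_eq {n : ℕ} {F : Set (H n)} (hF : IsClosed F) (y : V n) (s : ℝ) :
    sX F y s = ∫⁻ x : V n, F.indicator (fun _ => (1 : ℝ≥0∞)) (x, y, s + 2 * inner ℝ x y) := by
  unfold sX
  rw [← lintegral_indicator_one (meas_slice hF y s)]
  rfl

private lemma measurable_sX {n : ℕ} {F : Set (H n)} (hF : IsClosed F) :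
    Measurable (fun q : V n × ℝ => sX F q.1 q.2) := by
  have h1 : Measurable (fun r : (V n × ℝ) × V n =>
      F.indicator (fun _ => (1 : ℝ≥0∞)) ((r.2, r.1.1, r.1.2 + 2 * inner ℝ r.2 r.1.1) : H n)) := by
    have h2 : Measurable (fun r : (V n × ℝ) × V n =>
        ((r.2, r.1.1, r.1.2 + 2 * inner ℝ r.2 r.1.1) : H n)) :=
      (by fun_prop : Continuous _).measurable
    exact (measurable_const.indicator hF.measurableSet).comp h2
  have h3 := h1.lintegral_prod_right' (ν := (volume : Measure (V n)))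
  have h4 : (fun q : V n × ℝ => sX F q.1 q.2) = fun q : V n × ℝ =>
      ∫⁻ x : V n, F.indicator (fun _ => (1 : ℝ≥0∞)) (x, q.1, q.2 + 2 * inner ℝ x q.1) := by
    funext q
    exact sX_eq hF q.1 q.2
  rw [h4]
  exact h3

/-- mass of `v` over a point of the x-space -/
private noncomputable def MM {n : ℕ} (v : H n → ℝ) (x : V n) : ℝ≥0∞ :=
  ∫⁻ q : V n × ℝ, ENNReal.ofReal (v (x, q))

private lemma measurable_MM {n : ℕ} {v : H n → ℝ} (hv : Continuous v) : Measurable (MM v) := by
  have h1 : Measurable (fun p : V n × (V n × ℝ) => ENNReal.ofReal (v p)) :=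
    hv.measurable.ennreal_ofReal
  exact h1.lintegral_prod_right' (ν := (volume : Measure (V n × ℝ)))

private lemma lintegral_MM {n : ℕ} {v : H n → ℝ} (hv : Continuous v) (hc : HasCompactSupport v)
    (h0 : ∀ p, 0 ≤ v p) : ∫⁻ x, MM v x = ENNReal.ofReal (∫ p, v p) := by
  rw [ofReal_integral_eq_lintegral_ofReal (hv.integrable_of_hasCompactSupport hc)
    (Filter.Eventually.of_forall h0)]
  have h1 : AEMeasurable (fun p : V n × (V n × ℝ) => ENNReal.ofReal (v p))
      ((volume : Measure (V n)).prod (volume : Measure (V n × ℝ))) :=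
    hv.measurable.ennreal_ofReal.aemeasurable
  have h2 := lintegral_prod _ h1
  rw [← Measure.volume_eq_prod] at h2
  exact h2.symm

private lemma point {n : ℕ} {v : H n → ℝ} (hv : Continuous v)
    (h0 : ∀ p, 0 ≤ v p) {h θ : ℝ} (hh : 0 < h) (hθ : 0 < θ) (x y : V n) (t : ℝ)
    (ht : θ ≤ sm h v (x, y, t)) :
    (1 : ℝ≥0∞) ≤ ENNReal.ofReal (1 / (θ * h)) * ∫⁻ τ : ℝ, ENNReal.ofReal (v (x, y, τ)) := by
  unfold sm at ht
  have h1 : θ * h ≤ ∫ σ in (0 : ℝ)..h, v (x, y, t + σ) := by
    have h2 := mul_le_mul_of_nonneg_right ht hh.le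
    have h3 : 1 / h * (∫ σ in (0 : ℝ)..h, v (x, y, t + σ)) * h =
        ∫ σ in (0 : ℝ)..h, v (x, y, t + σ) := by field_simp
    rwa [h3] at h2
  have hcont : Continuous (fun σ : ℝ => v (x, y, t + σ)) := by fun_prop
  rw [intervalIntegral.integral_of_le hh.le] at h1
  have h4 := ENNReal.ofReal_le_ofReal h1
  rw [ofReal_integral_eq_lintegral_ofReal (hcont.integrableOn_Ioc)
    (Filter.Eventually.of_forall fun σ => h0 _)] at h4
  have h5 : ENNReal.ofReal (θ * h) ≤ ∫⁻ τ : ℝ, ENNReal.ofReal (v (x, y, τ)) := by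
    refine h4.trans ((setLIntegral_le_lintegral _ _).trans ?_)
    exact (lintegral_add_left_eq_self (μ := (volume : Measure ℝ))
      (fun τ : ℝ => ENNReal.ofReal (v (x, y, τ))) t).le
  calc (1 : ℝ≥0∞) = ENNReal.ofReal (1 / (θ * h)) * ENNReal.ofReal (θ * h) := by
        rw [← ENNReal.ofReal_mul (by positivity), one_div, inv_mul_cancel₀ (by positivity),
          ENNReal.ofReal_one]
    _ ≤ _ := by gcongr

private lemma sY_le {n : ℕ} {v : H n → ℝ} (hv : Continuous v)
    (h0 : ∀ p, 0 ≤ v p) {h θ : ℝ} (hh : 0 < h) (hθ : 0 < θ)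
    (hF : IsClosed {p : H n | θ ≤ sm h v p}) (x : V n) (s : ℝ) :
    sY {p : H n | θ ≤ sm h v p} x s ≤ ENNReal.ofReal (1 / (θ * h)) * MM v x := by
  unfold sY
  rw [← lintegral_indicator_one (meas_slice' hF x s)]
  have h1 : MM v x = ∫⁻ y : V n, ∫⁻ τ : ℝ, ENNReal.ofReal (v (x, y, τ)) := by
    unfold MM
    have h2 : AEMeasurable (fun q : V n × ℝ => ENNReal.ofReal (v (x, q)))
        ((volume : Measure (V n)).prod (volume : Measure ℝ)) := by
      have : Continuous (fun q : V n × ℝ => v (x, q)) := by fun_prop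
      exact this.measurable.ennreal_ofReal.aemeasurable
    have h3 := lintegral_prod _ h2
    rw [← Measure.volume_eq_prod] at h3
    exact h3
  rw [h1, ← lintegral_const_mul' _ _ ENNReal.ofReal_ne_top]
  apply lintegral_mono
  intro y
  simp only [Set.indicator_apply]
  split_ifs with hy
  · exact point hv h0 hh hθ x y _ hy
  · exact zero_le

private lemma main_int {n : ℕ} {v : H n → ℝ} (hv : Continuous v) (hc : HasCompactSupport v)
    (h0 : ∀ p, 0 ≤ v p) {F : Set (H n)} (hF : IsClosed F) (hS1 : T_S1) :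
    ∫⁻ p : H n, WX F p * MM v p.1 = volume F * ENNReal.ofReal (∫ p, v p) := by
  have hsX := measurable_sX hF
  have hM := measurable_MM hv
  have hmW : Measurable (fun p : H n => WX F p) := by
    have h2 : Measurable (fun p : H n => ((p.2.1, p.2.2 - 2 * inner ℝ p.1 p.2.1) : V n × ℝ)) :=
      (by fun_prop : Continuous _).measurable
    exact hsX.comp h2
  have hvol : volume F = ∫⁻ q : V n × ℝ, sX F q.1 q.2 := by
    have h1 := hS1 n (F.indicator (fun _ => (1 : ℝ≥0∞))) (measurable_const.indicator hF.measurableSet)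
    rw [lintegral_indicator hF.measurableSet, setLIntegral_one] at h1
    rw [h1]
    apply lintegral_congr
    intro q
    exact (sX_eq hF q.1 q.2).symm
  have h2 : AEMeasurable (fun p : V n × (V n × ℝ) => WX F p * MM v p.1)
      ((volume : Measure (V n)).prod (volume : Measure (V n × ℝ))) :=
    (hmW.mul (hM.comp measurable_fst)).aemeasurable
  have h3 := lintegral_prod _ h2
  rw [← Measure.volume_eq_prod] at h3
  rw [h3]
  have h4 : ∀ x : V n, ∫⁻ q : V n × ℝ, WX F (x, q) * MM v x = volume F * MM v x := by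
    intro x
    have h5 : Measurable (fun q : V n × ℝ => WX F (x, q)) := hmW.comp (by fun_prop)
    rw [lintegral_mul_const _ h5, hvol]
    congr 1
    have h6 := lintegral_prod _ (μ := (volume : Measure (V n))) (ν := (volume : Measure ℝ))
      h5.aemeasurable
    have h7 := lintegral_prod _ (μ := (volume : Measure (V n))) (ν := (volume : Measure ℝ))
      hsX.aemeasurable
    rw [← Measure.volume_eq_prod] at h6 h7
    rw [h6, h7]
    apply lintegral_congr
    intro y
    unfold WX
    simp only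
    exact lintegral_sub_right_eq_self (μ := (volume : Measure ℝ)) (fun s => sX F y s) _
  simp only
  rw [lintegral_congr h4, lintegral_const_mul _ hM, lintegral_MM hv hc h0]

theorem v5 : T_S1 → T_S2 → T_V2 → T_V5 := by
  intro hS1 _ hV2 n v h θ hv hc h0 hh hθ
  obtain ⟨hs1, hs2, -⟩ := hV2 n v h hv hc hh
  have hF : IsClosed {p : H n | θ ≤ sm h v p} := isClosed_le continuous_const hs1.continuous
  calc ∫⁻ p in {p : H n | θ ≤ sm h v p}, WX {p | θ ≤ sm h v p} p * WY {p | θ ≤ sm h v p} p
      ≤ ∫⁻ p in {p : H n | θ ≤ sm h v p}, ENNReal.ofReal (1 / (θ * h)) *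
          (WX {p | θ ≤ sm h v p} p * MM v p.1) := by
        apply lintegral_mono
        intro p
        simp only
        calc WX {p | θ ≤ sm h v p} p * WY {p | θ ≤ sm h v p} p
            ≤ WX {p | θ ≤ sm h v p} p * (ENNReal.ofReal (1 / (θ * h)) * MM v p.1) := by
              gcongr
              exact sY_le hv.continuous h0 hh hθ hF _ _
          _ = _ := by ring
    _ ≤ ∫⁻ p : H n, ENNReal.ofReal (1 / (θ * h)) * (WX {p | θ ≤ sm h v p} p * MM v p.1) :=
        setLIntegral_le_lintegral _ _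
    _ = ENNReal.ofReal (1 / (θ * h)) * ∫⁻ p : H n, (WX {p | θ ≤ sm h v p} p * MM v p.1) :=
        lintegral_const_mul' _ _ ENNReal.ofReal_ne_top
    _ = volume {p | θ ≤ sm h v p} * ENNReal.ofReal ((∫ p, v p) / (θ * h)) := by
        rw [main_int hv.continuous hc h0 hF hS1, mul_left_comm, ← ENNReal.ofReal_mul (by positivity)]
        congr 2
        ring

end Pool.Agent.H37.HS
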