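import Pool.Agent.H80.HS.Targets

namespace Pool.Agent.H37.HS
open MeasureTheory Set Pool.Agent.H80.HS
open scoped ContDiff ENNReal

theorem g1a : T_G1a := by
  intro n f g p hf hg
  set ρ : ℝ := ‖p.1‖ ^ 2 + ‖p.2.1‖ ^ 2 with hρ
  have hfd : HasDerivAt f (deriv f ρ) ρ := (hf.differentiable one_ne_zero ρ).hasDerivAt
  have hgd : HasDerivAt g (deriv g p.2.2) p.2.2 := (hg.differentiable one_ne_zero p.2.2).hasDerivAt
  have e1 : HasFDerivAt (fun q : H n => q.1) (ContinuousLinearMap.fst ℝ (V n) (V n × ℝ)) p :=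
    hasFDerivAt_fst
  have e2 : HasFDerivAt (fun q : H n => q.2) (ContinuousLinearMap.snd ℝ (V n) (V n × ℝ)) p :=
    hasFDerivAt_snd
  have e3 : HasFDerivAt (fun q : H n => q.2.1)
      ((ContinuousLinearMap.fst ℝ (V n) ℝ).comp (ContinuousLinearMap.snd ℝ (V n) (V n × ℝ))) p :=
    (hasFDerivAt_fst (𝕜 := ℝ) (p := p.2)).comp p e2
  have e4 : HasFDerivAt (fun q : H n => q.2.2)
      ((ContinuousLinearMap.snd ℝ (V n) ℝ).comp (ContinuousLinearMap.snd ℝ (V n) (V n × ℝ))) p :=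
    (hasFDerivAt_snd (𝕜 := ℝ) (p := p.2)).comp p e2
  have e5 := e1.norm_sq.add e3.norm_sq
  have e6 := hfd.comp_hasFDerivAt_of_eq p e5 hρ
  have e7 := hgd.comp_hasFDerivAt p e4
  have e8 := e6.mul e7
  have hD : ∀ q : H n, fderiv ℝ (fun q : H n => f (‖q.1‖ ^ 2 + ‖q.2.1‖ ^ 2) * g q.2.2) p q =
      f ρ * (deriv g p.2.2 * q.2.2) +
        g p.2.2 * (deriv f ρ * (2 * inner ℝ p.1 q.1 + 2 * inner ℝ p.2.1 q.2.1)) := by
    intro q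
    have e9 : HasFDerivAt (fun q : H n => f (‖q.1‖ ^ 2 + ‖q.2.1‖ ^ 2) * g q.2.2) _ p := e8
    rw [e9.fderiv]
    simp [hρ]
    ring
  have hin : ∀ (x : V n) (j : Fin n), inner ℝ x (EuclideanSpace.single j (1 : ℝ)) = x j := by
    intro x j
    rw [EuclideanSpace.inner_single_right]
    simp
  have hX : ∀ j, X (fun q : H n => f (‖q.1‖ ^ 2 + ‖q.2.1‖ ^ 2) * g q.2.2) j p =
      2 * (g p.2.2 * deriv f ρ) * p.1 j + 2 * (f ρ * deriv g p.2.2) * p.2.1 j := by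
    intro j
    unfold X
    rw [hD]
    simp only [hin, inner_zero_right]
    ring
  have hY : ∀ j, Y (fun q : H n => f (‖q.1‖ ^ 2 + ‖q.2.1‖ ^ 2) * g q.2.2) j p =
      2 * (g p.2.2 * deriv f ρ) * p.2.1 j - 2 * (f ρ * deriv g p.2.2) * p.1 j := by
    intro j
    unfold Y
    rw [hD]
    simp only [hin, inner_zero_right]
    ring
  have h1 : ∑ j, p.1 j ^ 2 = ‖p.1‖ ^ 2 := by
    rw [EuclideanSpace.real_norm_sq_eq]
  have h2 : ∑ j, p.2.1 j ^ 2 = ‖p.2.1‖ ^ 2 := by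
    rw [EuclideanSpace.real_norm_sq_eq]
  have hS : ∑ j, (‖X (fun q : H n => f (‖q.1‖ ^ 2 + ‖q.2.1‖ ^ 2) * g q.2.2) j p‖ ^ 2 +
      ‖Y (fun q : H n => f (‖q.1‖ ^ 2 + ‖q.2.1‖ ^ 2) * g q.2.2) j p‖ ^ 2) =
      2 ^ 2 * (ρ * (deriv f ρ ^ 2 * g p.2.2 ^ 2 + f ρ ^ 2 * deriv g p.2.2 ^ 2)) := by
    have h3 : ∀ j, ‖X (fun q : H n => f (‖q.1‖ ^ 2 + ‖q.2.1‖ ^ 2) * g q.2.2) j p‖ ^ 2 +
      ‖Y (fun q : H n => f (‖q.1‖ ^ 2 + ‖q.2.1‖ ^ 2) * g q.2.2) j p‖ ^ 2 =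
      (p.1 j ^ 2 + p.2.1 j ^ 2) *
        (2 ^ 2 * (deriv f ρ ^ 2 * g p.2.2 ^ 2 + f ρ ^ 2 * deriv g p.2.2 ^ 2)) := by
      intro j
      rw [hX, hY, Real.norm_eq_abs, Real.norm_eq_abs, sq_abs, sq_abs]
      ring
    rw [Finset.sum_congr rfl fun j _ => h3 j, ← Finset.sum_mul, Finset.sum_add_distrib, h1, h2]
    ring
  unfold grad
  rw [hS, Real.sqrt_mul (by norm_num), Real.sqrt_sq (by norm_num)]

end Pool.Agent.H37.HS
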